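import Mathlib
import Pool.Agent.X65.Mel

/-!
# Four-point lines: `t₄ ≤ (n² - n - 6) / 14`

`IsLine L` (in `Pool/Agent/X65/Mel.lean`) says that the affine subspace `L` of `ℝ × ℝ` has a
one-dimensional direction.
-/

set_option autoImplicit false

namespace Pool.Agent.Results.MP_aa1d7d_co.MelchiorBound

open Finset Pool.Agent.X65.Mel Pool.Agent.Helper543.Melchior

/-- the number of lines containing exactly four points of `P` -/
noncomputable def t4 (P : Finset (ℝ × ℝ)) : ℕ :=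
  {L : AffineSubspace ℝ (ℝ × ℝ) | IsLine L ∧ ((P : Set (ℝ × ℝ)) ∩ L).ncard = 4}.ncard

/-- no line contains five or more points of `P` -/
def FiveFree (P : Finset (ℝ × ℝ)) : Prop :=
  ∀ L : AffineSubspace ℝ (ℝ × ℝ), IsLine L → ((P : Set (ℝ × ℝ)) ∩ L).ncard ≤ 4

/-- the maximum number of four-point lines of a 5-free set of `n` points -/
noncomputable def T4 (n : ℕ) : ℕ :=
  sSup {t | ∃ P : Finset (ℝ × ℝ), P.card = n ∧ FiveFree P ∧ t = t4 P}

open scoped Classical in
theorem noncollinear (P : Finset (ℝ × ℝ)) (h5 : 5 ≤ P.card) (hf : FiveFree P) :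
    ∃ a ∈ P, ∃ b ∈ P, ∃ c ∈ P, cr a b c ≠ 0 := by
  by_contra hno
  push Not at hno
  obtain ⟨a, ha, b, hb, hab⟩ := one_lt_card.mp (by omega : 1 < P.card)
  have hL : IsLine (affineSpan ℝ {a, b}) := by
    unfold IsLine
    rw [direction_affineSpan, vectorSpan_pair_rev, finrank_span_singleton]
    rw [vsub_eq_sub]; exact sub_ne_zero.mpr hab.symm
  have h1 := hf _ hL
  rw [ncard_trace] at h1
  have h2 : trace P (affineSpan ℝ {a, b}) = P := by
    apply filter_true_of_mem
    intro x hx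
    rw [mem_iff_cr hL (left_mem_affineSpan_pair ℝ a b) (right_mem_affineSpan_pair ℝ a b) hab]
    exact hno a ha b hb x hx
  rw [h2] at h1
  omega

open scoped Classical in
theorem t4_le (P : Finset (ℝ × ℝ)) (h5 : 5 ≤ P.card) (hf : FiveFree P) :
    14 * t4 P + 6 ≤ P.card * (P.card - 1) := by
  have h1 := rich_bound (noncollinear P h5 hf)
  have h2 : t4 P ≤ ((lines P).filter (fun M => 4 ≤ M.card)).card := by
    rw [t4, ← Set.ncard_coe_finset]
    apply Set.ncard_le_ncard_of_injOn (fun L => trace P L) _ _ (Set.toFinite _)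
    · rintro L ⟨hL, hc⟩
      rw [ncard_trace] at hc
      simp only [coe_filter, Set.mem_ofPred_eq]
      exact ⟨trace_mem hL (by omega), by omega⟩
    · rintro L ⟨hL, hc⟩ L' ⟨hL', hc'⟩ h
      rw [ncard_trace] at hc
      exact trace_inj hL hL' (by omega) h
  omega

/-- For `n ≥ 5`, a set of `n` points with no five on a line has at most `(n² - n - 6) / 14` lines
containing exactly four of the points. -/
theorem result : (∀ P : Finset (ℝ × ℝ), 5 ≤ P.card → FiveFree P →
      (t4 P : ℝ) ≤ ((P.card : ℝ) ^ 2 - P.card - 6) / 14) ∧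
    ∀ n : ℕ, 5 ≤ n → (T4 n : ℝ) ≤ ((n : ℝ) ^ 2 - n - 6) / 14 := by
  have key : ∀ P : Finset (ℝ × ℝ), 5 ≤ P.card → FiveFree P →
      (t4 P : ℝ) ≤ ((P.card : ℝ) ^ 2 - P.card - 6) / 14 := by
    intro P h5 hf
    have h := t4_le P h5 hf
    obtain ⟨m, hm⟩ : ∃ m, P.card = m + 1 := ⟨P.card - 1, by omega⟩
    rw [hm] at h ⊢
    have h' : 14 * t4 P + 6 ≤ (m + 1) * m := by simpa using h
    have h2 : (14 : ℝ) * t4 P + 6 ≤ (m + 1) * m := by exact_mod_cast h'
    rw [le_div_iff₀ (by norm_num)]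
    push_cast
    nlinarith
  refine ⟨key, ?_⟩
  intro n hn
  rw [le_div_iff₀ (by norm_num)]
  have hle : ∀ t ∈ {t | ∃ P : Finset (ℝ × ℝ), P.card = n ∧ FiveFree P ∧ t = t4 P},
      (t : ℝ) * 14 ≤ (n : ℝ) ^ 2 - n - 6 := by
    rintro t ⟨P, hP, hf, rfl⟩
    have := key P (by omega) hf
    rw [hP, le_div_iff₀ (by norm_num)] at this
    exact this
  rcases Set.eq_empty_or_nonempty
    {t | ∃ P : Finset (ℝ × ℝ), P.card = n ∧ FiveFree P ∧ t = t4 P} with h | h
  · rw [T4, h, csSup_empty]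
    have : (5 : ℝ) ≤ n := by exact_mod_cast hn
    simp only [bot_eq_zero', CharP.cast_eq_zero, zero_mul]
    nlinarith
  · have hb : BddAbove {t | ∃ P : Finset (ℝ × ℝ), P.card = n ∧ FiveFree P ∧ t = t4 P} := by
      refine ⟨n ^ 2, ?_⟩
      intro t ht
      have h1 := hle t ht
      have h2 : (t : ℝ) ≤ (n : ℝ) ^ 2 := by
        have : (0 : ℝ) ≤ t := Nat.cast_nonneg _
        have : (0 : ℝ) ≤ n := Nat.cast_nonneg _
        nlinarith
      exact_mod_cast h2
    exact hle _ (Nat.sSup_mem h hb)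

end Pool.Agent.Results.MP_aa1d7d_co.MelchiorBound
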